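import Pool.Agent.W770.KP.Stm

set_option autoImplicit false

open scoped Classical

namespace Pool.Agent.W750.KP

open Pool.Agent.W770.KP

theorem stg : S_ST1 → S_LS → S_JEN → S_CONV → S_AVG → S_STG := by
  intro hST1 hLS hJEN hCONV hAVG n k hk hkn hSA hL2
  obtain ⟨C1, hC1, h1⟩ := hST1 n k hk hkn hSA
  obtain ⟨C2, hC2, h2⟩ := hLS n k hk hkn
  obtain ⟨C3, hC3, h3⟩ := hL2
  refine ⟨2 * (C1 * C2 ^ k * 3 ^ (n - k)) * C3, by positivity, ?_⟩
  intro F E _ _ _ _ _ hE Λ P hP B hB f hf hfB γ hγ a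
  have hb0 : ∀ (l : ℤ) (v : E), ∃ b : E, ∀ x, cnt (P l) x v ≤ cnt (P l) b v :=
    fun l v => Finite.exists_max _
  choose b hb using hb0
  have hγ0 : ∀ l ∈ Λ, 0 ≤ γ l := fun l hl => le_trans (by positivity) (hγ l hl)
  set G : ℝ := ∑ l ∈ Λ, γ l with hG
  have hG0 : 0 ≤ G := Finset.sum_nonneg hγ0
  set K : ℝ := C1 * C2 ^ k * 3 ^ (n - k) with hK
  have hK0 : 0 < K := by positivity
  set β : E → ℝ := fun v => K * G ^ (k - 1) * ∑ l ∈ Λ, γ l * ∑ l' ∈ Λ,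
    (2:ℝ) ^ (-|l - l'|) * ((4:ℝ) ^ l' * ((cnt (P l') (b l' v) v : ℕ) : ℝ)) ^ (n - k) with hβ
  have hstep : ∀ v : E, v ≠ 0 →
      ∑ W ∈ (Gr F E (k+1)).filter (fun W => v ∈ W), (PS f (a W) W) ^ n
        ≤ (((Gr F E (k+1)).filter (fun W => v ∈ W)).card : ℝ) * β v := by
    intro v hv
    have e1 := h1 F E hE f hf a v hv
    have hcard : ∀ l ∈ Λ, ∀ x : E, (Finset.univ.filter (fun t : F => x + t • v ∈ B l)).card
        ≤ cnt (P l) (b l v) v := by
      intro l hl x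
      refine le_trans ?_ (hb l v x)
      unfold cnt
      refine Finset.card_le_card ?_
      intro t ht
      rw [Finset.mem_filter] at ht ⊢
      exact ⟨Finset.mem_univ _, hB l hl _ ht.2⟩
    have e2 := h2 F E v hv Λ B (fun l => cnt (P l) (b l v) v) hcard f hf hfB
    set X : ℝ := (∑ x : E, (∑ t : F, f (x + t • v)) ^ ((n : ℝ) / (k : ℝ))) /
      (Fintype.card F : ℝ) with hX
    have hX0 : 0 ≤ X := by
      rw [hX]
      refine div_nonneg (Finset.sum_nonneg fun x _ => ?_) (Nat.cast_nonneg _)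
      exact Real.rpow_nonneg (Finset.sum_nonneg fun t _ => hf _) _
    set D : ℤ → ℝ := fun l => ∑ l' ∈ Λ, (2:ℝ) ^ (-|l - l'|) *
      ((4:ℝ) ^ l' * ((cnt (P l') (b l' v) v : ℕ) : ℝ)) with hD
    have hD0 : ∀ l, 0 ≤ D l := fun l => Finset.sum_nonneg fun l' _ => by positivity
    have e3 : X ≤ C2 * ∑ l ∈ Λ, (D l) ^ ((n:ℝ) / (k:ℝ) - 1) * γ l := by
      refine le_trans e2 ?_
      refine mul_le_mul_of_nonneg_left ?_ hC2.le
      refine Finset.sum_le_sum fun l hl => ?_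
      exact mul_le_mul_of_nonneg_left (hγ l hl) (Real.rpow_nonneg (hD0 l) _)
    have e4 : X ^ k ≤ C2 ^ k * (G ^ (k - 1) * ∑ l ∈ Λ, γ l * (D l) ^ (n - k)) := by
      refine le_trans (pow_le_pow_left₀ hX0 e3 k) ?_
      rw [mul_pow]
      exact mul_le_mul_of_nonneg_left (hJEN n k hk hkn Λ D γ hD0 hγ0) (by positivity)
    have e5 : ∀ l, (D l) ^ (n - k) ≤ 3 ^ (n - k) * ∑ l' ∈ Λ, (2:ℝ) ^ (-|l - l'|) *
        ((4:ℝ) ^ l' * ((cnt (P l') (b l' v) v : ℕ) : ℝ)) ^ (n - k) := by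
      intro l
      exact hCONV (n - k) (by omega) Λ
        (fun l' => (4:ℝ) ^ l' * ((cnt (P l') (b l' v) v : ℕ) : ℝ)) (fun l' => by positivity) l
    have e6 : ∑ l ∈ Λ, γ l * (D l) ^ (n - k) ≤ 3 ^ (n - k) * ∑ l ∈ Λ, γ l * ∑ l' ∈ Λ,
        (2:ℝ) ^ (-|l - l'|) * ((4:ℝ) ^ l' * ((cnt (P l') (b l' v) v : ℕ) : ℝ)) ^ (n - k) := by
      rw [Finset.mul_sum]
      refine Finset.sum_le_sum fun l hl => ?_
      rw [mul_left_comm]
      exact mul_le_mul_of_nonneg_left (e5 l) (hγ0 l hl)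
    refine le_trans e1 ?_
    have e7 : X ^ k ≤ C2 ^ k * (G ^ (k - 1) * (3 ^ (n - k) * ∑ l ∈ Λ, γ l * ∑ l' ∈ Λ,
        (2:ℝ) ^ (-|l - l'|) * ((4:ℝ) ^ l' * ((cnt (P l') (b l' v) v : ℕ) : ℝ)) ^ (n - k))) := by
      refine le_trans e4 ?_
      exact mul_le_mul_of_nonneg_left (mul_le_mul_of_nonneg_left e6 (by positivity)) (by positivity)
    refine le_trans (mul_le_mul_of_nonneg_left e7 (by positivity)) ?_
    rw [hβ, hK]
    apply le_of_eq
    ring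
  have havg := hAVG F E (k + 1) (by omega) (fun W => (PS f (a W) W) ^ n) β hstep
  rw [hE] at havg
  set q : ℝ := (Fintype.card F : ℝ) with hq
  have hq2 : 2 ≤ q := by
    have : 1 < Fintype.card F := Fintype.one_lt_card
    rw [hq]
    exact_mod_cast this
  set S : ℝ := ∑ W ∈ Gr F E (k+1), (PS f (a W) W) ^ n with hS
  have hS0 : 0 ≤ S := by
    refine Finset.sum_nonneg fun W _ => pow_nonneg ?_ _
    unfold PS
    refine Finset.sum_nonneg fun x _ => ?_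
    split_ifs
    · exact hf x
    · exact le_rfl
  set T : ℝ := ∑ l ∈ Λ, γ l * ∑ l' ∈ Λ, (2:ℝ) ^ (-|l - l'|) *
    (4:ℝ) ^ (l' * ((n:ℤ) - (k:ℤ))) * ((P l').card : ℝ) with hT
  have hβsum : ∑ v ∈ (Finset.univ : Finset E).filter (fun v => v ≠ 0), β v
      ≤ K * G ^ (k - 1) * (C3 * q ^ (n + 1) * T) := by
    rw [hβ, ← Finset.mul_sum]
    refine mul_le_mul_of_nonneg_left ?_ (by positivity)
    rw [Finset.sum_comm, hT, Finset.mul_sum]
    refine Finset.sum_le_sum fun l hl => ?_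
    rw [← Finset.mul_sum, mul_left_comm]
    refine mul_le_mul_of_nonneg_left ?_ (hγ0 l hl)
    rw [Finset.sum_comm, Finset.mul_sum]
    refine Finset.sum_le_sum fun l' hl' => ?_
    rw [← Finset.mul_sum, mul_assoc ((2:ℝ) ^ (-|l - l'|)), mul_left_comm]
    refine mul_le_mul_of_nonneg_left ?_ (by positivity)
    have e8 := h3 F E hE (P l') (hP l' hl') (b l')
    rw [Nat.add_sub_add_right] at e8
    have e9 : ∀ v : E, ((4:ℝ) ^ l' * ((cnt (P l') (b l' v) v : ℕ) : ℝ)) ^ (n - k)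
        = (4:ℝ) ^ (l' * ((n:ℤ) - (k:ℤ))) * ((cnt (P l') (b l' v) v : ℕ) : ℝ) ^ (n - k) := by
      intro v
      rw [mul_pow, zpow_mul, ← Nat.cast_sub hkn.le, zpow_natCast]
    simp only [e9]
    rw [← Finset.mul_sum]
    refine le_trans (mul_le_mul_of_nonneg_left e8 (by positivity)) ?_
    apply le_of_eq
    ring
  have hqn : q ^ (n + 1) / 2 ≤ q ^ (n + 1) - 1 := by
    have : 2 ≤ q ^ (n + 1) := by
      calc (2:ℝ) ≤ q := hq2
        _ = q ^ 1 := (pow_one q).symm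
        _ ≤ q ^ (n + 1) := pow_le_pow_right₀ (by linarith) (by omega)
    linarith
  have hqpos : 0 < q ^ (n + 1) := by positivity
  have hfin : S * (q ^ (n + 1) / 2) ≤ ((Gr F E (k+1)).card : ℝ) *
      (K * G ^ (k - 1) * (C3 * q ^ (n + 1) * T)) := by
    refine le_trans (mul_le_mul_of_nonneg_left hqn hS0) ?_
    refine le_trans havg ?_
    exact mul_le_mul_of_nonneg_left hβsum (Nat.cast_nonneg _)
  have hfin2 : S * q ^ (n + 1) ≤ (2 * K * C3 * ((Gr F E (k+1)).card : ℝ) * G ^ (k - 1) * T) *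
      q ^ (n + 1) := by
    nlinarith [hfin]
  exact le_of_mul_le_mul_right hfin2 hqpos

end Pool.Agent.W750.KP
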